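import Pool.Agent.Helper334_Fold.U_uniform_result

set_option autoImplicit false

open Set

namespace Pool.Agent.Results.MP_7e3f48_co.UniformMotion

open Pool.Agent.H334

/-- For every hinged tree of simple polygons there is a finite set `C` of crease segments such that
any two configurations `f`, `g` are joined by a continuous motion `F` which is isometric on every
piece of the polygons cut along `C` at all times, and which is non-crossing: for every `ε > 0`
it is within `ε` of a motion `G` from `f` to `g` through embeddings of the glued space. -/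
theorem result {k : ℕ} (X : PolyTree k) :
    ∃ C : Fin (k + 1) → Set (ℂ × ℂ),
      (∀ i, (C i).Finite ∧ ∀ c ∈ C i, segment ℝ c.1 c.2 ⊆ X.region i) ∧
      ∀ f g : Fin (k + 1) → ℂ → Space, X.IsConfig f → X.IsConfig g →
        ∃ F : ℝ → Fin (k + 1) → ℂ → Space,
          X.Joins F f g ∧ (∀ t ∈ Icc (0 : ℝ) 1, X.Folded C (F t)) ∧
          ∀ ε > (0 : ℝ), ∃ G : ℝ → Fin (k + 1) → ℂ → Space,
            X.Joins G f g ∧ (∀ t ∈ Icc (0 : ℝ) 1, X.Embeds (G t)) ∧
            ∀ t ∈ Icc (0 : ℝ) 1, ∀ i, ∀ x ∈ X.region i, dist (G t i x) (F t i x) < ε :=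
  uniform_result X

end Pool.Agent.Results.MP_7e3f48_co.UniformMotion
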